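import Mathlib

/-!
# Irreducible elementary nets of `R`-modules need not be closed

Let `R` be a principal ideal domain that is not a field, `k` its field of fractions and `K` a
proper algebraic extension of `k`. For every `n ≥ 2` there is an irreducible elementary net of
order `n` over `K`, all of whose entries are `R`-submodules of `K`, that is not closed.
-/

namespace Pool.Agent.Results.MP_9bf48e_al.NonclosedNet

open Matrix Polynomial

section defs

variable {R K : Type*} [CommRing R] [Field K] [Algebra R K] {n : ℕ}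

/-- An elementary net of order `n` over `K` whose entries are `R`-submodules of `K` (the diagonal
entries play no role): `σ i r * σ r j ⊆ σ i j` for pairwise distinct `i, r, j`. -/
def IsElementaryNet (σ : Fin n → Fin n → Submodule R K) : Prop :=
  ∀ i r j : Fin n, i ≠ r → r ≠ j → i ≠ j → ∀ a ∈ σ i r, ∀ b ∈ σ r j, a * b ∈ σ i j

/-- All off-diagonal entries are nonzero. -/
def IsIrreducibleNet (σ : Fin n → Fin n → Submodule R K) : Prop :=
  ∀ i j : Fin n, i ≠ j → σ i j ≠ ⊥

/-- The elementary net subgroup `E(σ)`: the subgroup of `GL(n, K)` generated by the elementary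
transvections `t i j a = 1 + a * e i j` with `i ≠ j` and `a ∈ σ i j`. -/
def netSubgroup (σ : Fin n → Fin n → Submodule R K) : Subgroup (GL (Fin n) K) :=
  Subgroup.closure {g | ∃ i j : Fin n, i ≠ j ∧ ∃ a ∈ σ i j,
    (g : Matrix (Fin n) (Fin n) K) = transvection i j a}

/-- The net is closed: every elementary transvection `t i j a` (`i ≠ j`) in `E(σ)` has
`a ∈ σ i j`. -/
def IsClosedNet (σ : Fin n → Fin n → Submodule R K) : Prop :=
  ∀ g ∈ netSubgroup σ, ∀ i j : Fin n, i ≠ j → ∀ a : K,
    (g : Matrix (Fin n) (Fin n) K) = transvection i j a → a ∈ σ i j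

end defs

/-! ## The element `θ` -/

theorem not_mem_aux {R K : Type*} [CommRing R] [IsDomain R] [IsIntegrallyClosed R] [Field K]
    [Algebra R K] [FaithfulSMul R K] {θ : K} (hθ : IsIntegral R θ)
    (hr : θ ∉ (algebraMap R K).range) {p : R} (hp : ¬ IsUnit p) (r : R) (f : R[X])
    (h : θ = algebraMap R K r + algebraMap R K p * aeval θ f) : False := by
  have hmon := minpoly.monic hθ
  have h2 : 2 ≤ (minpoly R θ).natDegree := (minpoly.two_le_natDegree_iff hθ).2 hr
  set μ := minpoly R θ with hμ
  set q := f %ₘ μ with hq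
  have haev : aeval θ q = aeval θ f := by
    rw [hq]
    exact aeval_modByMonic_eq_self_of_root (minpoly.aeval R θ)
  set g : R[X] := X - C r - C p * q with hg
  have hg0 : aeval θ g = 0 := by
    rw [hg, map_sub, map_sub, map_mul, aeval_X, aeval_C, aeval_C, haev]
    linear_combination h
  have hdvd : μ ∣ g := minpoly.isIntegrallyClosed_dvd hθ hg0
  have hdeg2 : (2 : WithBot ℕ) ≤ μ.degree := by
    rw [degree_eq_natDegree hmon.ne_zero]
    exact_mod_cast h2
  have hdeg : g.degree < μ.degree := by
    have h1 : (X - C r : R[X]).degree < μ.degree := by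
      rw [degree_X_sub_C]
      exact lt_of_lt_of_le (by norm_num) hdeg2
    have h3 : (C p * q).degree < μ.degree := by
      rw [← smul_eq_C_mul]
      refine lt_of_le_of_lt (degree_smul_le p q) ?_
      exact degree_modByMonic_lt f hmon
    exact lt_of_le_of_lt (degree_sub_le _ _) (max_lt h1 h3)
  have hz : g = 0 := eq_zero_of_dvd_of_degree_lt hdvd hdeg
  have hc : g.coeff 1 = 0 := by rw [hz, coeff_zero]
  rw [hg, coeff_sub, coeff_sub, coeff_X_one, coeff_C_mul, coeff_C_succ] at hc
  apply hp
  exact IsUnit.of_mul_eq_one (q.coeff 1) (by linear_combination -hc)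

theorem exists_theta {R k K : Type*} [CommRing R] [IsDomain R] [Field k] [Algebra R k]
    [IsFractionRing R k] [Field K] [Algebra k K] [Algebra R K] [IsScalarTower R k K]
    [Algebra.IsAlgebraic k K] (hK : ¬ Function.Surjective (algebraMap k K)) :
    ∃ θ : K, IsIntegral R θ ∧ θ ∉ (algebraMap R K).range := by
  have : Algebra.IsAlgebraic R K := (IsFractionRing.comap_isAlgebraic_iff (A := R) (K := k)).2 inferInstance
  obtain ⟨x, hx⟩ : ∃ x : K, ∀ y : k, algebraMap k K y ≠ x := by
    unfold Function.Surjective at hK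
    push Not at hK
    exact hK
  obtain ⟨y, hy, hint⟩ := (Algebra.IsAlgebraic.isAlgebraic (R := R) x).exists_integral_multiple
  refine ⟨y • x, hint, ?_⟩
  rintro ⟨r, hr⟩
  have hy' : algebraMap R k y ≠ 0 := by
    simpa using hy
  have hy2 : algebraMap k K (algebraMap R k y) ≠ 0 := by
    simpa using hy'
  apply hx (algebraMap R k r / algebraMap R k y)
  rw [map_div₀, ← IsScalarTower.algebraMap_apply, hr, Algebra.smul_def,
    IsScalarTower.algebraMap_apply R k K y]
  field_simp

/-! ## The transvection identity -/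

theorem conj_identity {A K : Type*} [Ring A] [CommRing K] [Algebra K A] (X Y : A)
    (hXX : X * X = 0) (hYY : Y * Y = 0) (hXYX : X * Y * X = X) (hYXY : Y * X * Y = Y) (a : K) :
    (1 + X) * (1 - Y) * (1 + X) * (1 + a • Y) = (1 - a • X) * ((1 + X) * (1 - Y) * (1 + X)) := by
  have hw : (1 + X) * (1 - Y) * (1 + X) = 1 + X - Y - X * Y - Y * X := by
    have : (1 + X) * (1 - Y) * (1 + X) =
        1 + X + X - Y - X * Y - Y * X - X * Y * X + X * X := by noncomm_ring
    rw [this, hXX, hXYX]
    abel
  rw [hw]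
  have h1 : (1 + X - Y - X * Y - Y * X) * (1 + a • Y) =
      (1 + X - Y - X * Y - Y * X) + a • (Y + X * Y - Y * Y - X * (Y * Y) - Y * X * Y) := by
    rw [mul_add, mul_one, mul_smul_comm]
    congr 2
    noncomm_ring
  have h2 : (1 - a • X) * (1 + X - Y - X * Y - Y * X) =
      (1 + X - Y - X * Y - Y * X) - a • (X + X * X - X * Y - X * X * Y - X * Y * X) := by
    rw [sub_mul, one_mul, smul_mul_assoc]
    congr 2
    noncomm_ring
  rw [h1, h2, hXX, hYY, hXYX, hYXY]
  simp only [mul_zero, zero_mul, sub_zero, add_zero]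
  have h3 : Y + X * Y - Y = X * Y := by abel
  have h4 : X - X * Y - X = -(X * Y) := by abel
  rw [h3, h4, smul_neg, sub_neg_eq_add]

section group

variable {K : Type*} [Field K] {n : ℕ}

/-- The transvection as an element of `GL`. -/
def tr (i j : Fin n) (h : i ≠ j) (a : K) : GL (Fin n) K where
  val := transvection i j a
  inv := transvection i j (-a)
  val_inv := by rw [transvection_mul_transvection_same _ _ h, add_neg_cancel, transvection_zero]
  inv_val := by rw [transvection_mul_transvection_same _ _ h, neg_add_cancel, transvection_zero]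

theorem tr_conj (i j : Fin n) (h : i ≠ j) (a : K) :
    tr i j h 1 * tr j i h.symm (-1) * tr i j h 1 * tr j i h.symm a =
      tr i j h (-a) * (tr i j h 1 * tr j i h.symm (-1) * tr i j h 1) := by
  apply Units.ext
  simp only [Units.val_mul, tr, transvection]
  have e1 : single j i (-1 : K) = - single j i (1 : K) := by
    ext x y; simp only [single_apply, Matrix.neg_apply]; split_ifs <;> simp
  have e2 : single j i a = a • single j i (1 : K) := by simp
  have e3 : single i j (-a) = -(a • single i j (1 : K)) := by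
    ext x y; simp only [single_apply, Matrix.neg_apply, Matrix.smul_apply]; split_ifs <;> simp
  rw [e1, e2, e3, ← sub_eq_add_neg, ← sub_eq_add_neg]
  apply conj_identity
  · simp [h.symm]
  · simp [h]
  · simp
  · simp

theorem tr_mem_of {R : Type*} [CommRing R] [Algebra R K] (σ : Fin n → Fin n → Submodule R K)
    {i j : Fin n} (h : i ≠ j) (h1 : (1 : K) ∈ σ i j) (h2 : (1 : K) ∈ σ j i) {a : K}
    (ha : a ∈ σ j i) : tr i j h (-a) ∈ netSubgroup σ := by
  have m1 : tr i j h 1 ∈ netSubgroup σ := Subgroup.subset_closure ⟨i, j, h, 1, h1, rfl⟩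
  have m2 : tr j i h.symm (-1) ∈ netSubgroup σ :=
    Subgroup.subset_closure ⟨j, i, h.symm, -1, neg_mem h2, rfl⟩
  have m3 : tr j i h.symm a ∈ netSubgroup σ := Subgroup.subset_closure ⟨j, i, h.symm, a, ha, rfl⟩
  have m4 := mul_mem (mul_mem m1 m2) m1
  have m5 := mul_mem m4 m3
  rw [tr_conj] at m5
  exact (Subgroup.mul_mem_cancel_right _ m4).1 m5

end group

/-! ## The net -/

section net

variable {R K : Type*} [CommRing R] [Field K] [Algebra R K] {n : ℕ}

/-- The ring `R[θ]` as an `R`-submodule of `K`. -/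
noncomputable def OO (R : Type*) {K : Type*} [CommRing R] [Field K] [Algebra R K] (θ : K) :
    Submodule R K := Subalgebra.toSubmodule (Algebra.adjoin R {θ})

/-- `p R[θ]`. -/
noncomputable def PO (θ : K) (p : R) : Submodule R K :=
  (OO R θ).map (LinearMap.mulLeft R (algebraMap R K p))

/-- `R + p R[θ]`. -/
noncomputable def MO (θ : K) (p : R) : Submodule R K := Submodule.span R {1} ⊔ PO θ p

theorem one_mem_OO (θ : K) : (1 : K) ∈ OO R θ := one_mem (Algebra.adjoin R {θ})

theorem theta_mem_OO (θ : K) : θ ∈ OO R θ := Algebra.subset_adjoin rfl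

theorem mul_mem_OO {θ a b : K} (ha : a ∈ OO R θ) (hb : b ∈ OO R θ) : a * b ∈ OO R θ :=
  mul_mem (S := Subalgebra R K) (s := Algebra.adjoin R {θ}) ha hb

theorem PO_le (θ : K) (p : R) : PO θ p ≤ OO R θ := by
  rintro _ ⟨x, hx, rfl⟩
  exact mul_mem_OO ((Algebra.adjoin R {θ}).algebraMap_mem p) hx

theorem MO_le (θ : K) (p : R) : MO θ p ≤ OO R θ := by
  refine sup_le ?_ (PO_le θ p)
  rw [Submodule.span_singleton_le_iff_mem]
  exact one_mem_OO θ

theorem mul_mem_PO_left {θ a b : K} {p : R} (ha : a ∈ OO R θ) (hb : b ∈ PO θ p) :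
    a * b ∈ PO θ p := by
  obtain ⟨x, hx, rfl⟩ := hb
  refine ⟨a * x, mul_mem_OO ha hx, ?_⟩
  simp only [LinearMap.mulLeft_apply]
  ring

theorem mul_mem_PO_right {θ a b : K} {p : R} (ha : a ∈ PO θ p) (hb : b ∈ OO R θ) :
    a * b ∈ PO θ p := by
  rw [mul_comm]
  exact mul_mem_PO_left hb ha

theorem one_mem_MO (θ : K) (p : R) : (1 : K) ∈ MO θ p :=
  Submodule.mem_sup_left (Submodule.mem_span_singleton_self 1)

open Classical in
/-- The net. -/
noncomputable def net (θ : K) (p : R) (i j : Fin n) : Submodule R K :=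
  if 2 ≤ i.val then OO R θ
  else if 2 ≤ j.val then PO θ p
  else if i.val = 0 then MO θ p
  else OO R θ

theorem net_le (θ : K) (p : R) (i j : Fin n) : net θ p i j ≤ OO R θ := by
  unfold net
  split_ifs
  · exact le_rfl
  · exact PO_le θ p
  · exact MO_le θ p
  · exact le_rfl

theorem net_isElementaryNet (θ : K) (p : R) : IsElementaryNet (net (n := n) θ p) := by
  intro i r j hir hrj hij a ha b hb
  have ha' := net_le θ p i r ha
  have hb' := net_le θ p r j hb
  have h1 : i.val ≠ r.val := fun h => hir (Fin.ext h)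
  have h2 : r.val ≠ j.val := fun h => hrj (Fin.ext h)
  have h3 : i.val ≠ j.val := fun h => hij (Fin.ext h)
  by_cases hi : 2 ≤ i.val
  · simp only [net, if_pos hi]
    exact mul_mem_OO ha' hb'
  · by_cases hj : 2 ≤ j.val
    · have : net θ p i j = PO θ p := by simp only [net, if_neg hi, if_pos hj]
      rw [this]
      by_cases hr : 2 ≤ r.val
      · have h4 : net θ p i r = PO θ p := by simp only [net, if_neg hi, if_pos hr]
        rw [h4] at ha
        exact mul_mem_PO_right ha hb'
      · have h4 : net θ p r j = PO θ p := by simp only [net, if_neg hr, if_pos hj]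
        rw [h4] at hb
        exact mul_mem_PO_left ha' hb
    · have hr : 2 ≤ r.val := by omega
      have h4 : net θ p i r = PO θ p := by simp only [net, if_neg hi, if_pos hr]
      rw [h4] at ha
      have h5 := mul_mem_PO_right ha hb'
      by_cases hi0 : i.val = 0
      · simp only [net, if_neg hi, if_neg hj, if_pos hi0]
        exact Submodule.mem_sup_right h5
      · simp only [net, if_neg hi, if_neg hj, if_neg hi0]
        exact mul_mem_OO ha' hb'

theorem net_irreducible (θ : K) (p : R) (hp : algebraMap R K p ≠ 0) :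
    IsIrreducibleNet (net (n := n) θ p) := by
  intro i j _ h
  have h0 : algebraMap R K p ∈ PO θ p := ⟨1, one_mem_OO θ, by simp⟩
  have h1 : algebraMap R K p ∈ net θ p i j := by
    unfold net
    split_ifs
    · exact PO_le θ p h0
    · exact h0
    · exact Submodule.mem_sup_right h0
    · exact PO_le θ p h0
  rw [h, Submodule.mem_bot] at h1
  exact hp h1

theorem theta_not_mem [IsDomain R] [IsIntegrallyClosed R] [FaithfulSMul R K] {θ : K}
    (hθ : IsIntegral R θ) (hr : θ ∉ (algebraMap R K).range) {p : R} (hp : ¬ IsUnit p) :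
    θ ∉ MO θ p := by
  intro h
  obtain ⟨x, hx, y, hy, hxy⟩ := Submodule.mem_sup.1 h
  obtain ⟨r, rfl⟩ := Submodule.mem_span_singleton.1 hx
  obtain ⟨z, hz, rfl⟩ := hy
  have hz' : z ∈ Algebra.adjoin R {θ} := hz
  rw [Algebra.adjoin_singleton_eq_range_aeval] at hz'
  obtain ⟨f, rfl⟩ := hz'
  refine not_mem_aux hθ hr hp r f ?_
  conv_lhs => rw [← hxy]
  rw [Algebra.smul_def, mul_one]
  rfl

end net

/-- **Irreducible elementary nets of `R`-modules need not be closed.** -/
theorem result {R k K : Type*} [CommRing R] [IsDomain R] [IsPrincipalIdealRing R]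
    (hR : ¬ IsField R) [Field k] [Algebra R k] [IsFractionRing R k] [Field K] [Algebra k K]
    [Algebra R K] [IsScalarTower R k K] [Algebra.IsAlgebraic k K]
    (hK : ¬ Function.Surjective (algebraMap k K)) (n : ℕ) (hn : 2 ≤ n) :
    ∃ σ : Fin n → Fin n → Submodule R K,
      IsElementaryNet σ ∧ IsIrreducibleNet σ ∧ ¬ IsClosedNet σ := by
  obtain ⟨θ, hθ, hr⟩ := exists_theta (R := R) (k := k) (K := K) hK
  have hinj : Function.Injective (algebraMap R K) := by
    rw [IsScalarTower.algebraMap_eq R k K]
    exact (algebraMap k K).injective.comp (IsFractionRing.injective R k)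
  have hf : FaithfulSMul R K := (faithfulSMul_iff_algebraMap_injective R K).2 hinj
  obtain ⟨p, hp0, hp⟩ := Ring.exists_not_isUnit_of_not_isField hR
  refine ⟨net θ p, net_isElementaryNet θ p, net_irreducible θ p ?_, ?_⟩
  · intro h
    exact hp0 (hinj (by rw [h, map_zero]))
  · intro hcl
    have h01 : (⟨0, by omega⟩ : Fin n) ≠ ⟨1, by omega⟩ := by simp
    have e01 : net (n := n) θ p ⟨0, by omega⟩ ⟨1, by omega⟩ = MO θ p := by simp [net]
    have e10 : net (n := n) θ p ⟨1, by omega⟩ ⟨0, by omega⟩ = OO R θ := by simp [net]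
    have h1 := tr_mem_of (net θ p) h01 (by rw [e01]; exact one_mem_MO θ p)
      (by rw [e10]; exact one_mem_OO θ) (a := -θ) (by rw [e10]; exact neg_mem (theta_mem_OO θ))
    rw [neg_neg] at h1
    have h2 := hcl _ h1 _ _ h01 θ rfl
    rw [e01] at h2
    exact theta_not_mem hθ hr hp h2

/-- The case `R = ℤ`, `k = ℚ`, `K` the field of algebraic numbers (illustration). -/
theorem int_example (n : ℕ) (hn : 2 ≤ n) :
    ∃ σ : Fin n → Fin n → Submodule ℤ (AlgebraicClosure ℚ),
      IsElementaryNet σ ∧ IsIrreducibleNet σ ∧ ¬ IsClosedNet σ := by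
  have halg : Algebra.IsAlgebraic ℚ (AlgebraicClosure ℚ) := AlgebraicClosure.isAlgebraic ℚ
  refine result (k := ℚ) Int.not_isField ?_ n hn
  intro hs
  obtain ⟨x, hx⟩ := IsAlgClosed.exists_pow_nat_eq (-1 : AlgebraicClosure ℚ) (n := 2) (by norm_num)
  obtain ⟨q, rfl⟩ := hs x
  have h : algebraMap ℚ (AlgebraicClosure ℚ) (q ^ 2) = algebraMap ℚ (AlgebraicClosure ℚ) (-1) := by
    rw [map_pow, hx, map_neg, map_one]
  have h2 : q ^ 2 = -1 := (algebraMap ℚ (AlgebraicClosure ℚ)).injective h
  nlinarith [sq_nonneg q]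

end Pool.Agent.Results.MP_9bf48e_al.NonclosedNet
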